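import Pool.Agent.Y245.SC.Stm

/-!
Job SC-SER of project SC: the limit of the finite Vekua sums.
-/

set_option autoImplicit false

open Complex MeasureTheory Metric Set Filter Topology ComplexConjugate
open Pool.Agent.TH298.Sch (Sol)

namespace Pool.Agent.Y975.SC.Ser

open Pool.Agent.Y245.SC

/-- basic facts on the map -/
lemma basic {φ : ℂ → ℂ} {r : ℝ} (hr : 1 < r) (hφ : DifferentiableOn ℂ φ (ball 0 r))
    (hinj : InjOn φ (ball 0 r)) :
    Bornology.IsBounded (φ '' ball 0 1) ∧ MeasurableSet (φ '' ball 0 1) ∧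
    ContinuousOn (deriv φ) (closedBall 0 1) ∧ ContinuousOn φ (closedBall 0 1) ∧
    ∃ S : ℝ, 0 ≤ S ∧ ∀ w ∈ closedBall (0 : ℂ) 1, ‖φ w‖ ≤ S ∧ ‖deriv φ w‖ ≤ S := by
  have hsub : closedBall (0 : ℂ) 1 ⊆ ball 0 r := closedBall_subset_ball hr
  have hc : ContinuousOn φ (closedBall 0 1) := hφ.continuousOn.mono hsub
  have hd : ContinuousOn (deriv φ) (closedBall 0 1) :=
    (hφ.deriv isOpen_ball).continuousOn.mono hsub
  have hK : IsCompact (closedBall (0 : ℂ) 1) := isCompact_closedBall 0 1
  refine ⟨(hK.image_of_continuousOn hc).isBounded.subset (image_mono ball_subset_closedBall),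
    measurableSet_ball.image_of_continuousOn_injOn (hc.mono ball_subset_closedBall)
      (hinj.mono (ball_subset_ball hr.le)), hd, hc, ?_⟩
  obtain ⟨S1, hS1⟩ := hK.exists_bound_of_continuousOn hc
  obtain ⟨S2, hS2⟩ := hK.exists_bound_of_continuousOn hd
  exact ⟨max 0 (max S1 S2), le_max_left _ _, fun w hw =>
    ⟨(hS1 w hw).trans ((le_max_left _ _).trans (le_max_right _ _)),
      (hS2 w hw).trans ((le_max_right _ _).trans (le_max_right _ _))⟩⟩

/-- Green's formula for the terms -/
lemma term (hD : S_DISC) {φ g : ℂ → ℂ} {r : ℝ} (hr : 1 < r)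
    (hφ : DifferentiableOn ℂ φ (ball 0 r)) (hg : DifferentiableOn ℂ g (ball 0 r)) (k : ℕ) :
    2 * I * ((k : ℂ) + 1) * (∫ w in ball (0 : ℂ) 1, conj (φ w) ^ k * g w *
      (deriv φ w * conj (deriv φ w))) =
    ∮ w in C(0, 1), conj (φ w) ^ (k + 1) * g w * deriv φ w := by
  have h := hD r (fun w => g w * deriv φ w) (fun w => φ w ^ (k + 1)) hr
    (hg.mul (hφ.deriv isOpen_ball)) (hφ.pow (k + 1))
  have e1 : (∫ w in ball (0 : ℂ) 1, g w * deriv φ w * conj (deriv (fun w => φ w ^ (k + 1)) w)) =
      ((k : ℂ) + 1) * ∫ w in ball (0 : ℂ) 1, conj (φ w) ^ k * g w *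
      (deriv φ w * conj (deriv φ w)) := by
    rw [← integral_const_mul]
    refine setIntegral_congr_fun measurableSet_ball fun w hw => ?_
    have hw' : w ∈ ball (0 : ℂ) r := ball_subset_ball hr.le hw
    have hdw : DifferentiableAt ℂ φ w := (hφ w hw').differentiableAt (isOpen_ball.mem_nhds hw')
    have e2 : deriv (fun w => φ w ^ (k + 1)) w = ((k : ℂ) + 1) * φ w ^ k * deriv φ w := by
      have h1 : HasDerivAt (fun w => φ w ^ (k + 1)) (((k + 1 : ℕ) : ℂ) * φ w ^ k * deriv φ w) w :=
        hdw.hasDerivAt.pow (k + 1)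
      rw [h1.deriv]
      push_cast
      ring
    rw [e2]
    simp only [map_mul, map_pow, map_add, map_natCast, map_one]
    ring
  rw [e1] at h
  rw [mul_assoc, h]
  refine circleIntegral.integral_congr zero_le_one fun w _ => ?_
  simp only [map_pow]
  ring

theorem ser : S_SER := by
  intro hD hCh hW hV φ r lam c u G hr hlam hc hφ hinj hsol h hh hder hbd
  obtain ⟨C, M, hCM⟩ := hbd
  obtain ⟨hΩb, hΩm, hdc, hφc, S, hS0, hS⟩ := basic hr hφ hinj
  have hsub : closedBall (0 : ℂ) 1 ⊆ ball 0 r := closedBall_subset_ball hr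
  set a : ℝ := lam / 4 with ha
  have ha0 : 0 < a := by positivity
  have hlam4 : lam = 4 * a := by rw [ha]; ring
  have hCM' : ∀ k, ∀ w ∈ closedBall (0 : ℂ) 1, ‖h k w‖ ≤ |C| * |M| ^ k := fun k w hw => by
    refine (hCM k w hw).trans ((le_abs_self _).trans (le_of_eq ?_))
    rw [abs_mul, abs_pow]
  set J : ℕ → ℂ := fun k => ∮ w in C(0, 1), conj (φ w) ^ (k + 1) * h k w * deriv φ w with hJ
  set t : ℕ → ℂ := fun k => (-(a : ℂ)) ^ k / ((k + 1).factorial : ℂ) * J k with ht
  -- summability
  have hsum : Summable t := by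
    have hJb : ∀ k, ‖J k‖ ≤ 2 * Real.pi * 1 * (S ^ (k + 1) * (|C| * |M| ^ k) * S) := fun k => by
      refine circleIntegral.norm_integral_le_of_norm_le_const zero_le_one fun w hw => ?_
      have hw' : w ∈ closedBall (0 : ℂ) 1 := sphere_subset_closedBall hw
      rw [norm_mul, norm_mul, norm_pow, Complex.norm_conj]
      have := (hS w hw').1
      have h2 := (hS w hw').2
      have h3 := hCM' k w hw'
      gcongr
    refine Summable.of_norm_bounded (g := fun k : ℕ => (2 * Real.pi * (S ^ 2 * |C|)) *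
      ((a * S * |M|) ^ k / (k.factorial : ℝ))) ((Real.summable_pow_div_factorial _).mul_left _)
      fun k => ?_
    rw [ht]
    simp only
    rw [norm_mul, norm_div, norm_pow, norm_neg, Complex.norm_real, Real.norm_eq_abs,
      abs_of_pos ha0, Complex.norm_natCast]
    have hfac : (k.factorial : ℝ) ≤ ((k + 1).factorial : ℝ) := by
      exact_mod_cast Nat.factorial_le (Nat.le_succ k)
    have hfk : (0 : ℝ) < (k.factorial : ℝ) := by exact_mod_cast k.factorial_pos
    calc a ^ k / ((k + 1).factorial : ℝ) * ‖J k‖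
        ≤ a ^ k / (k.factorial : ℝ) * (2 * Real.pi * 1 * (S ^ (k + 1) * (|C| * |M| ^ k) * S)) := by
          have := hJb k
          gcongr
      _ = (2 * Real.pi * (S ^ 2 * |C|)) * ((a * S * |M|) ^ k / (k.factorial : ℝ)) := by
          rw [mul_pow, mul_pow]
          ring
  -- the partial sums
  choose V hV2 hVs hVl using fun N => hV φ r a h N hr hφ hinj hh hder
  have hlapint : ∀ N, (∫ x in φ '' ball 0 1, lap (V N) x) =
      2 * a * I * ∑ k ∈ Finset.range N, t k := by
    intro N
    rw [hCh φ r (fun x => lap (V N) x) hr hφ hinj]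
    have e1 : (∫ w in ball (0 : ℂ) 1, lap (V N) (φ w) * (deriv φ w * conj (deriv φ w))) =
        ∫ w in ball (0 : ℂ) 1, ∑ k ∈ Finset.range N, (-(4 * a) * ((-(a : ℂ)) ^ k /
          (k.factorial : ℂ))) * (conj (φ w) ^ k * h k w * (deriv φ w * conj (deriv φ w))) := by
      refine setIntegral_congr_fun measurableSet_ball fun w hw => ?_
      rw [hVl N w hw, Finset.mul_sum, Finset.sum_mul]
      refine Finset.sum_congr rfl fun k _ => ?_
      ring
    rw [e1, integral_finsetSum, Finset.mul_sum]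
    · refine Finset.sum_congr rfl fun k _ => ?_
      rw [integral_const_mul]
      have e2 := term hD hr hφ (hh k) k
      have hk1 : ((k : ℂ) + 1) ≠ 0 := by exact_mod_cast Nat.succ_ne_zero k
      have hkf : (k.factorial : ℂ) ≠ 0 := by exact_mod_cast k.factorial_ne_zero
      have e3 : J k = 2 * I * ((k : ℂ) + 1) * (∫ w in ball (0 : ℂ) 1, conj (φ w) ^ k * h k w *
        (deriv φ w * conj (deriv φ w))) := e2.symm
      rw [ht]
      simp only
      rw [e3, Nat.factorial_succ]
      push_cast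
      field_simp
      ring_nf
      rw [I_sq]
      ring
    · intro k _
      refine Integrable.const_mul ?_ _
      have hcont : ContinuousOn (fun w => conj (φ w) ^ k * h k w *
          (deriv φ w * conj (deriv φ w))) (closedBall 0 1) := by
        have h1 : ContinuousOn (fun w => conj (φ w)) (closedBall 0 1) :=
          Complex.continuous_conj.comp_continuousOn hφc
        have h2 : ContinuousOn (fun w => conj (deriv φ w)) (closedBall 0 1) :=
          Complex.continuous_conj.comp_continuousOn hdc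
        have h3 : ContinuousOn (h k) (closedBall 0 1) := (hh k).continuousOn.mono hsub
        exact ((h1.pow k).mul h3).mul (hdc.mul h2)
      exact (hcont.integrableOn_compact (isCompact_closedBall 0 1)).mono_set ball_subset_closedBall
  have hui : Integrable (fun x => |u x|) (volume.restrict (φ '' ball 0 1)) :=
    (hsol.ui hΩb).abs
  have hbound : ∀ N, ‖(c : ℂ) * ∫ x in φ '' ball 0 1, lap (V N) x‖ ≤
      (∫ x in φ '' ball 0 1, |u x|) * (4 * a * |C|) * ((a * S * |M|) ^ N / (N.factorial : ℝ)) := by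
    intro N
    rw [← hW (φ '' ball 0 1) lam c u G (V N) hΩb hΩm hsol (hV2 N), mul_assoc,
      ← integral_mul_const]
    refine norm_integral_le_of_norm_le (hui.mul_const _) ?_
    refine (ae_restrict_iff' hΩm).2 (Eventually.of_forall fun x hx => ?_)
    obtain ⟨w, hw, rfl⟩ := hx
    rw [norm_mul, Complex.norm_real, Real.norm_eq_abs]
    refine mul_le_mul_of_nonneg_left ?_ (abs_nonneg _)
    have e4 : lap (V N) (φ w) + lam * V N (φ w) =
        4 * a * ((-(a : ℂ)) ^ N / (N.factorial : ℂ) * conj (φ w) ^ N * h N w) := by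
      rw [hVl N w hw, hVs N w hw, Finset.sum_range_succ, hlam4]
      push_cast
      ring
    have hw' : w ∈ closedBall (0 : ℂ) 1 := ball_subset_closedBall hw
    rw [e4, norm_mul, norm_mul, norm_mul, norm_mul, norm_div, norm_pow, norm_pow, norm_neg,
      Complex.norm_real, Real.norm_eq_abs, abs_of_pos ha0, Complex.norm_natCast,
      Complex.norm_conj]
    have h1 := (hS w hw').1
    have h3 := hCM' N w hw'
    have h4 : ‖(4 : ℂ)‖ = 4 := by simp
    rw [h4]
    calc 4 * a * (a ^ N / (N.factorial : ℝ) * ‖φ w‖ ^ N * ‖h N w‖)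
        ≤ 4 * a * (a ^ N / (N.factorial : ℝ) * S ^ N * (|C| * |M| ^ N)) := by
          gcongr
      _ = 4 * a * |C| * ((a * S * |M|) ^ N / (N.factorial : ℝ)) := by
          rw [mul_pow, mul_pow]
          ring
  have hlim1 : Tendsto (fun N => (c : ℂ) * ∫ x in φ '' ball 0 1, lap (V N) x) atTop (𝓝 0) := by
    refine squeeze_zero_norm hbound ?_
    have := (FloorSemiring.tendsto_pow_div_factorial_atTop (a * S * |M|)).const_mul
      ((∫ x in φ '' ball 0 1, |u x|) * (4 * a * |C|))
    simpa using this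
  have hlim2 : Tendsto (fun N => ∑ k ∈ Finset.range N, t k) atTop (𝓝 0) := by
    have hne : (c : ℂ) * (2 * a * I) ≠ 0 := by
      have h1 : (c : ℂ) ≠ 0 := by exact_mod_cast hc
      have h2 : (a : ℂ) ≠ 0 := by exact_mod_cast ha0.ne'
      exact mul_ne_zero h1 (mul_ne_zero (mul_ne_zero two_ne_zero h2) I_ne_zero)
    have := hlim1.const_mul ((c : ℂ) * (2 * a * I))⁻¹
    rw [mul_zero] at this
    refine this.congr fun N => ?_
    rw [hlapint N]
    have e5 : ((c : ℂ) * (2 * a * I))⁻¹ * (c * (2 * a * I * ∑ k ∈ Finset.range N, t k)) =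
        (((c : ℂ) * (2 * a * I))⁻¹ * ((c : ℂ) * (2 * a * I))) * ∑ k ∈ Finset.range N, t k := by
      ring
    rw [e5, inv_mul_cancel₀ hne, one_mul]
  have hfin : HasSum t (∑' k, t k) := hsum.hasSum
  have h0 : ∑' k, t k = 0 := tendsto_nhds_unique hfin.tendsto_sum_nat hlim2
  rw [h0] at hfin
  exact hfin

end Pool.Agent.Y975.SC.Ser
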